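import Pool.Agent.TH93.GL.Null

/-!
# The classes with guessed bits lie between `P` and `NP`
-/

set_option autoImplicit false

namespace Pool.Agent.TH93.GL

open Pool.Agent.NPC Pool.Agent.H620R2.Gauge Pool.Agent.H622R2 Pool.Agent.TH678.ETH

theorem InGuess.np {g : ℕ → ℕ} (hg : NiceT (fun n => n) g) {A : Oracle} {L : Set (List Bool)}
    (hL : InGuess (fun n => n) g A L) : IsNP A L := by
  obtain ⟨S, hS⟩ := hg.poly (fun _ => le_rfl)
  obtain ⟨F, hF, hFx⟩ := hg
  obtain ⟨V, hV, hx⟩ := hL
  have hP := poly_of_polyTime hF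
  have h0 : Poly (fun z : List Bool => z) := Poly.id
  have hw : Poly (fun z : List Bool => (unpair z).1) := Poly.fst poly_unpair
  have hx' : Poly (fun z : List Bool => (unpair z).2) := Poly.snd poly_unpair
  have hy : Poly (fun z : List Bool =>
      pairBits (List.replicate (unpair z).2.length true) (unpair z).2) :=
    poly_pairBits (V7.poly_replicate (UPoly.length hx')) hx'
  have hφ : Poly (fun p : List Bool × List Bool => pairBits (unpair p.1).1
      (pairBits (List.replicate (unpair p.1).2.length true) (unpair p.1).2)) :=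
    poly_pairBits (hw.comp (Poly.fst Poly.id)) (hy.comp (Poly.fst Poly.id))
  have hψ : Poly (fun p : List Bool × List Bool × List Bool =>
      [decide ((unpair p.1).1.length ≤ (F (pairBits (List.replicate
        (unpair p.1).2.length true) (unpair p.1).2)).length) && decide (p.2.2 = [true])]) := by
    refine Poly.cons (Poly.and (Poly.decide_le (Poly.length (hw.comp (Poly.fst Poly.id)))
      (Poly.length (hP.comp (hy.comp (Poly.fst Poly.id))))) ?_) (NPC.Poly.const [])
    exact Poly.decide_eq (Poly.snd (Poly.snd Poly.id)) (NPC.Poly.const _)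
  refine ⟨_, S, IsFP.seq (IsFP.of_poly h0) hV hφ hψ, fun x => ?_⟩
  have key : ∀ w : List Bool, ([decide ((unpair (pairBits w x)).1.length ≤ (F (pairBits
      (List.replicate (unpair (pairBits w x)).2.length true) (unpair (pairBits w x)).2)).length) &&
      decide (V (pairBits (unpair (pairBits w x)).1 (pairBits (List.replicate
        (unpair (pairBits w x)).2.length true) (unpair (pairBits w x)).2)) = [true])] = [true]) ↔
      (w.length ≤ g x.length ∧ V (pairBits w (pairBits (List.replicate x.length true) x)) =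
        [true]) := by
    intro w
    have h1 := hFx x
    simp only [unpair_pairBits, h1, List.length_replicate, List.cons.injEq, and_true,
      Bool.and_eq_true, decide_eq_true_eq]
  rw [hx x]
  constructor
  · rintro ⟨w, hw1, hw2⟩
    exact ⟨w, hw1.trans (hS _), (key w).2 ⟨hw1, hw2⟩⟩
  · rintro ⟨w, _, hw⟩
    exact ⟨w, (key w).1 hw⟩

theorem guess_of_p {τ h : ℕ → ℕ} {A : Oracle} {L : Set (List Bool)} (hL : IsP A L) :
    InGuess τ h A L := by
  obtain ⟨V, hV, hx⟩ := hL
  have h1 : Poly (fun z : List Bool => (unpair (unpair z).2).2) :=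
    Poly.snd (poly_unpair.comp (Poly.snd poly_unpair))
  refine ⟨fun z => V (unpair (unpair z).2).2, hV.precomp h1, fun x => ?_⟩
  simp only [unpair_pairBits]
  rw [hx x]
  exact ⟨fun h => ⟨[], by simp, h⟩, fun ⟨_, _, h⟩ => h⟩

/-- If `PSPACE = P` then no bits have to be guessed. -/
theorem guess_of_pspace {g h : ℕ → ℕ} (hg : NiceT (fun n => n) g) {A : Oracle}
    (hA : ∀ L, IsPSPACE A L → IsP A L) {L : Set (List Bool)}
    (hL : InGuess (fun n => n) g A L) : InGuess (fun n => n) h A L :=
  guess_of_p (hA L (hL.np hg).isPSPACE)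

end Pool.Agent.TH93.GL
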