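import Pool.Agent.TH93.GL.Defs
import Pool.Agent.H620R2.GaugeR.R2
import Pool.Agent.H620R2.Gauge2.V7
import Pool.Agent.TH683.AT.Low

/-!
# The test language can be decided with `g` guessed bits; few bits can be saved
-/

set_option autoImplicit false

namespace Pool.Agent.TH93.GL

open Pool.Agent.NPC Pool.Agent.H620R2.Gauge Pool.Agent.H622R2
open Pool.Agent.TH678.ETH

/-- the questions -/
def QG (F : List Bool → List Bool) (z : List Bool) : List (List Bool) :=
  (List.range (F (unpair z).2).length).map (fun i =>
    (unpair (unpair z).2).2 ++ (unpair z).1 ++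
      List.replicate (min i (F (unpair z).2).length) true)

/-- the verdict -/
def HG (F : List Bool → List Bool) (y : List Bool × List Bool) : List Bool :=
  [decide ((unpair y.1).1.length = (F (unpair y.1).2).length) && y.2.all (fun b => b)]

theorem poly_QG {F : List Bool → List Bool} (hF : Poly F) : Poly (QG F) := by
  have hw : Poly (fun z : List Bool => (unpair z).1) := Poly.fst poly_unpair
  have hy : Poly (fun z : List Bool => (unpair z).2) := Poly.snd poly_unpair
  have hx : Poly (fun z : List Bool => (unpair (unpair z).2).2) :=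
    Poly.snd (poly_unpair.comp hy)
  have hp : UPoly (fun z : List Bool => (F (unpair z).2).length) := UPoly.length (hF.comp hy)
  unfold QG
  refine NPC.Poly.map (F := fun (z : List Bool) (i : ℕ) =>
    (unpair (unpair z).2).2 ++ (unpair z).1 ++
      List.replicate (min i (F (unpair z).2).length) true) (UPoly.range hp) ?_
  have hx' : Poly (fun p : List Bool × ℕ => (unpair (unpair p.1).2).2) :=
    hx.comp (Poly.fst Poly.id)
  have hw' : Poly (fun p : List Bool × ℕ => (unpair p.1).1) := hw.comp (Poly.fst Poly.id)
  have hp' : UPoly (fun p : List Bool × ℕ => (F (unpair p.1).2).length) :=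
    UPoly.length ((hF.comp hy).comp (Poly.fst Poly.id))
  refine Poly.append (Poly.append hx' hw') (V7.poly_replicate ?_)
  exact UPoly.of_le (Poly.min (Poly.snd Poly.id) hp'.toPoly) hp' (fun p => min_le_right _ _)

theorem poly_HG {F : List Bool → List Bool} (hF : Poly F) : Poly (HG F) := by
  have hw' : Poly (fun z : List Bool × List Bool => (unpair z.1).1) :=
    Poly.fst (poly_unpair.comp (Poly.fst Poly.id))
  have hy' : Poly (fun z : List Bool × List Bool => F (unpair z.1).2) :=
    hF.comp (Poly.snd (poly_unpair.comp (Poly.fst Poly.id)))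
  unfold HG
  refine Poly.cons (Poly.and (Poly.decide_eq (Poly.length hw') (Poly.length hy')) ?_)
    (NPC.Poly.const [])
  exact Poly.all (p := fun (_ : List Bool × List Bool) (b : Bool) => b) (Poly.snd Poly.id)
    (Poly.snd Poly.id)

/-- The test language can be decided with `g` guessed bits. -/
theorem hitG_guess {τ g : ℕ → ℕ} (hg : NiceT τ g) (A : Oracle) : InGuess τ g A (hitG g A) := by
  obtain ⟨F, hF, hFx⟩ := hg
  have hP := poly_of_polyTime hF
  refine ⟨fun z => HG F (z, (QG F z).map A), IsFP.tt (poly_QG hP) (poly_HG hP), fun x => ?_⟩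
  have key : ∀ w : List Bool, HG F (pairBits w (pairBits (List.replicate (τ x.length) true) x),
      (QG F (pairBits w (pairBits (List.replicate (τ x.length) true) x))).map A) = [true] ↔
      (w.length = g x.length ∧
        ∀ i < g x.length, A (x ++ w ++ List.replicate i true) = true) := by
    intro w
    unfold HG QG
    simp only [unpair_pairBits, hFx, List.length_replicate, List.cons.injEq, and_true,
      Bool.and_eq_true, decide_eq_true_eq, List.all_eq_true, List.mem_map, List.mem_range]
    constructor
    · rintro ⟨h1, h2⟩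
      refine ⟨h1, fun i hi => ?_⟩
      apply h2
      refine ⟨_, ⟨i, hi, rfl⟩, ?_⟩
      rw [min_eq_left hi.le]
    · rintro ⟨h1, h2⟩
      refine ⟨h1, ?_⟩
      rintro b ⟨_, ⟨i, hi, rfl⟩, rfl⟩
      rw [min_eq_left hi.le]
      exact h2 i hi
  unfold hitG
  rw [Set.mem_ofPred_eq]
  constructor
  · rintro ⟨w, hw, h⟩
    exact ⟨w, hw.le, (key w).2 ⟨hw, h⟩⟩
  · rintro ⟨w, _, hw⟩
    exact ⟨w, (key w).1 hw⟩

/-! ### The strings given by numbers -/

/-- the string given by the number `i` -/
def ub (i : ℕ) : List Bool := (i + 1).bits.reverse.tail.reverse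

theorem bits_top (u : List Bool) : (valB u + 2 ^ u.length).bits = u ++ [true] := by
  induction u with
  | nil =>
    show (0 + 1 : ℕ).bits = [true]
    rfl
  | cons b u ih =>
    have h1 : valB (b :: u) + 2 ^ (b :: u).length = Nat.bit b (valB u + 2 ^ u.length) := by
      rw [valB_cons, List.length_cons, pow_succ, Nat.bit_val]
      cases b <;> simp <;> ring
    rw [h1, Nat.bits_append_bit, ih, List.cons_append]
    intro h
    have : 1 ≤ 2 ^ u.length := Nat.one_le_two_pow
    omega

theorem exists_ub (u : List Bool) : ∃ i < 2 ^ (u.length + 1), ub i = u := by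
  have h1 := valB_lt u
  have h2 : 1 ≤ 2 ^ u.length := Nat.one_le_two_pow
  refine ⟨valB u + 2 ^ u.length - 1, ?_, ?_⟩
  · rw [pow_succ]
    omega
  · unfold ub
    rw [Nat.sub_add_cancel (by omega), bits_top]
    simp

theorem poly_ub {α : Type} [TEnc α] {i : α → ℕ} (hi : Poly i) : Poly (fun a => ub (i a)) :=
  Poly.reverse (Poly.tail (Poly.reverse (Poly.natBits (Poly.succ hi))))

/-! ### Saving few bits -/

/-- If `g ≤ h + O(log τ)` then `h` guessed bits suffice. -/
theorem InGuess.save {τ g h : ℕ → ℕ} (hg : NiceT τ g) {c : ℕ}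
    (hc : ∀ n, g n ≤ h n + c * (Nat.log 2 (τ n) + 1)) {A : Oracle} {L : Set (List Bool)}
    (hL : InGuess τ g A L) : InGuess τ h A L := by
  obtain ⟨F, hF, hFx⟩ := hg
  obtain ⟨V, hV, hx⟩ := hL
  have hP := poly_of_polyTime hF
  set T : Polynomial ℕ := 2 * (2 * Polynomial.X + 2) ^ c with hT
  set W : (ℕ × List Bool) × List Bool → List Bool :=
    fun y => pairBits ((unpair y.1.2).1 ++ ub y.1.1) (unpair y.1.2).2 with hW
  set H : List Bool × List Bool → List Bool := fun y =>
    [y.2.zipIdx.any (fun p => p.1 && decide ((unpair y.1).1.length + (ub p.2).length ≤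
      (F (unpair y.1).2).length))] with hH
  have pW : Poly W := by
    have hz : Poly (fun y : (ℕ × List Bool) × List Bool => unpair y.1.2) :=
      poly_unpair.comp (Poly.snd (Poly.fst Poly.id))
    rw [hW]
    refine poly_pairBits (Poly.append (Poly.fst hz) (poly_ub ?_)) (Poly.snd hz)
    exact Poly.fst (Poly.fst Poly.id)
  have pH : Poly H := by
    have hz : Poly (fun y : (List Bool × List Bool) × (Bool × ℕ) => unpair y.1.1) :=
      poly_unpair.comp (Poly.fst (Poly.fst Poly.id))
    rw [hH]
    refine Poly.cons ?_ (NPC.Poly.const [])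
    refine Poly.any (l := fun y : List Bool × List Bool => y.2.zipIdx)
      (p := fun (y : List Bool × List Bool) (p : Bool × ℕ) => p.1 &&
        decide ((unpair y.1).1.length + (ub p.2).length ≤ (F (unpair y.1).2).length))
      (Poly.zipIdx (Poly.snd Poly.id)) ?_
    refine Poly.and (Poly.fst (Poly.snd Poly.id)) (Poly.decide_le (Poly.add
      (Poly.length (Poly.fst hz)) (Poly.length (poly_ub ?_))) (Poly.length (hP.comp ?_)))
    · exact Poly.snd (Poly.snd Poly.id)
    · exact Poly.snd hz
  have hQ : Poly (fun _ : ℕ × List Bool => ([] : List (List Bool))) := NPC.Poly.const _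
  have hVV := IsFP.votes hV T hQ pW pH
  refine ⟨_, hVV, fun x => ?_⟩
  rw [hx x]
  set y := pairBits (List.replicate (τ x.length) true) x with hy
  have hFy : (F y).length = g x.length := by rw [hy, hFx, List.length_replicate]
  have key : ∀ w' : List Bool, H (pairBits w' y, (List.range (T.eval (pairBits w' y).length)).map
      (fun i => decide (V (W ((i, pairBits w' y), ([] : List (List Bool)).map A)) = [true]))) =
        [true] ↔
      ∃ i < T.eval (pairBits w' y).length, V (pairBits (w' ++ ub i) y) = [true] ∧
        w'.length + (ub i).length ≤ g x.length := by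
    intro w'
    rw [hH, hW]
    simp only [unpair_pairBits, hFy, List.cons.injEq, and_true, List.any_eq_true,
      Bool.and_eq_true, decide_eq_true_eq]
    constructor
    · rintro ⟨⟨b, i⟩, hbi, hb, hi⟩
      rw [List.mem_zipIdx_iff_getElem?] at hbi
      simp only [List.getElem?_map] at hbi
      dsimp only at hb hi
      subst hb
      rcases Nat.lt_or_ge i (T.eval (pairBits w' y).length) with h | h
      · rw [List.getElem?_range h] at hbi
        simp only [Option.map_some, Option.some.injEq, decide_eq_true_eq] at hbi
        exact ⟨i, h, hbi, hi⟩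
      · rw [List.getElem?_eq_none (by simpa using h)] at hbi
        simp at hbi
    · rintro ⟨i, h, hv, hi⟩
      refine ⟨(true, i), ?_, rfl, hi⟩
      rw [List.mem_zipIdx_iff_getElem?]
      simp only [List.getElem?_map]
      rw [List.getElem?_range h]
      simp [hv]
  constructor
  · rintro ⟨w, hw, hwV⟩
    obtain ⟨i, hi, hiu⟩ := exists_ub (w.drop (h x.length))
    refine ⟨w.take (h x.length), ?_, (key _).2 ⟨i, ?_, ?_, ?_⟩⟩
    · rw [List.length_take]
      exact min_le_left _ _
    · refine lt_of_lt_of_le hi ?_
      have h1 : (w.drop (h x.length)).length ≤ c * (Nat.log 2 (τ x.length) + 1) := by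
        rw [List.length_drop]
        have := hc x.length
        omega
      have h2 : 2 ^ (Nat.log 2 (τ x.length) + 1) ≤ 2 * τ x.length + 2 := by
        rcases Nat.eq_zero_or_pos (τ x.length) with h0 | h0
        · rw [h0]; simp
        · have := Nat.pow_log_le_self 2 (x := τ x.length) (by omega)
          rw [pow_succ]
          omega
      have h3 : τ x.length ≤ (pairBits (w.take (h x.length)) y).length := by
        rw [length_pairBits, hy, length_pairBits, List.length_replicate]
        omega
      rw [hT]
      simp only [Polynomial.eval_mul, Polynomial.eval_pow, Polynomial.eval_add,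
        Polynomial.eval_ofNat, Polynomial.eval_X]
      calc 2 ^ ((w.drop (h x.length)).length + 1) ≤
            2 ^ (c * (Nat.log 2 (τ x.length) + 1) + 1) :=
            Nat.pow_le_pow_right (by norm_num) (by omega)
        _ = 2 * (2 ^ (Nat.log 2 (τ x.length) + 1)) ^ c := by
            rw [pow_succ, ← pow_mul, mul_comm c]; ring
        _ ≤ 2 * (2 * τ x.length + 2) ^ c :=
            Nat.mul_le_mul_left _ (Nat.pow_le_pow_left h2 _)
        _ ≤ _ := Nat.mul_le_mul_left _ (Nat.pow_le_pow_left (by omega) _)
    · rw [hiu, List.take_append_drop]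
      exact hwV
    · rw [hiu, ← List.length_append, List.take_append_drop]
      exact hw
  · rintro ⟨w', _, hw'⟩
    obtain ⟨i, _, hv, hi⟩ := (key w').1 hw'
    exact ⟨w' ++ ub i, by rw [List.length_append]; exact hi, hv⟩

theorem NiceT.poly {τ g : ℕ → ℕ} (hg : NiceT τ g) (hτ : ∀ n, n ≤ τ n) :
    ∃ S : Polynomial ℕ, ∀ n, g n ≤ S.eval (τ n) := by
  obtain ⟨F, hF, hFx⟩ := hg
  obtain ⟨q, hq⟩ := (poly_of_polyTime hF).sz_le
  refine ⟨q.comp (4 * (3 * Polynomial.X + 1) + 1), fun n => ?_⟩
  set y := pairBits (List.replicate (τ n) true) (List.replicate n true) with hy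
  have h1 := length_lt_sz (F y)
  have h0 : (F y).length = g n := by
    have := hFx (List.replicate n true)
    rw [List.length_replicate] at this
    rw [hy, this, List.length_replicate]
  rw [← h0]
  refine h1.le.trans ((hq _).trans ?_)
  rw [Polynomial.eval_comp]
  apply eval_mono
  have h2 := sz_listBool_le y
  have h3 : y.length = 2 * τ n + n + 1 := by
    rw [hy, length_pairBits, List.length_replicate, List.length_replicate]
    ring
  have h4 := hτ n
  simp only [Polynomial.eval_add, Polynomial.eval_mul, Polynomial.eval_ofNat, Polynomial.eval_X,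
    Polynomial.eval_one]
  omega

theorem countable_niceT (τ : ℕ → ℕ) : {g : ℕ → ℕ | NiceT τ g}.Countable := by
  refine (countable_polyTime.image (fun F n =>
    (F (pairBits (List.replicate (τ n) true) (List.replicate n true))).length)).mono ?_
  rintro g ⟨F, hF, hFx⟩
  refine ⟨F, hF, funext fun n => ?_⟩
  have := hFx (List.replicate n true)
  rw [List.length_replicate] at this
  dsimp only
  rw [this, List.length_replicate]

end Pool.Agent.TH93.GL
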