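import Pool.Agent.TH93.GL.Inst

/-!
# The lower bound for the number of guessed bits relative to almost all oracles
-/

set_option autoImplicit false

namespace Pool.Agent.TH93.GL

open Pool.Agent.NPC Pool.Agent.H620R2.Gauge Finset H568R2 Pool.Agent.H676 Pool.Agent.TH678.ETH
open MeasureTheory Filter
open Pool.Agent.TH683.AT (poly_small scaleP)

theorem poly_log (P : Polynomial ℕ) : ∃ c, ∀ t, P.eval t ≤ 2 ^ (c * (Nat.log 2 t + 1)) := by
  refine ⟨P.eval 1 + P.natDegree, fun t => ?_⟩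
  have h1 := scaleP P t 0
  rw [pow_zero, Nat.zero_add] at h1
  exact (eval_mono P (Nat.le_succ t)).trans h1

theorem countable_polyN : Countable (Polynomial ℕ) := by
  have : Function.Injective (fun p : Polynomial ℕ => (p.toFinsupp.coeff : ℕ →₀ ℕ)) := by
    intro p q h
    ext n
    exact DFunLike.congr_fun h n
  exact this.countable

/-- The exponent of `2` in the bound for `Φ.T` -/
def Fam.Bd (Φ : Fam) (τ g : ℕ → ℕ) : Prop :=
  ∃ c, ∀ n, ∀ η ≤ g n, Φ.T n η ≤ 2 ^ (η + c * (Nat.log 2 (τ n) + 1))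

/-- if the event does not happen at large lengths then `g` is small -/
theorem small_of_not_ev {Φ : Fam} {τ g h : ℕ → ℕ} (hb : Φ.Bd τ g) {A : Oracle} {n₀ : ℕ}
    (hA : ∀ n ≥ n₀, 1 ≤ g n → A ∉ Ev Φ g n) {a : ℕ → List Bool}
    (ha : ∀ n, (a n).length ≤ Φ.r.eval n)
    (hx : ∀ x, x ∈ hitG g A ↔ Φ.F (h x.length) (a x.length) x A) :
    ∃ c, ∀ n, g n ≤ h n + c * (Nat.log 2 (τ n) + 1) := by
  obtain ⟨c, hc⟩ := hb
  refine ⟨c + 5 + ∑ i ∈ Finset.range n₀, g i, fun n => ?_⟩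
  by_cases hn : n < n₀
  · have h1 : g n ≤ ∑ i ∈ Finset.range n₀, g i :=
      Finset.single_le_sum (f := g) (fun i _ => Nat.zero_le _) (Finset.mem_range.2 hn)
    have h2 : c + 5 + ∑ i ∈ Finset.range n₀, g i ≤
        (c + 5 + ∑ i ∈ Finset.range n₀, g i) * (Nat.log 2 (τ n) + 1) :=
      Nat.le_mul_of_pos_right _ (by omega)
    omega
  · by_contra hcon
    push Not at hcon
    have h1 : (c + 5) * (Nat.log 2 (τ n) + 1) ≤
        (c + 5 + ∑ i ∈ Finset.range n₀, g i) * (Nat.log 2 (τ n) + 1) :=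
      Nat.mul_le_mul_right _ (by omega)
    have h2 : h n + (c + 5) * (Nat.log 2 (τ n) + 1) ≤ g n := by omega
    have h3 : h n ≤ g n := by omega
    have h4 : 1 ≤ g n := by
      have : 1 ≤ (c + 5) * (Nat.log 2 (τ n) + 1) := Nat.mul_pos (by omega) (by omega)
      omega
    refine hA n (by omega) h4 ⟨h n, h3, ?_, a n, ha n, fun x hxn => ?_⟩
    · have h5 := hc n (h n) h3
      have h6 : 5 + (h n + c * (Nat.log 2 (τ n) + 1)) ≤ g n := by
        have e1 : (c + 5) * (Nat.log 2 (τ n) + 1) = c * (Nat.log 2 (τ n) + 1) +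
          5 * (Nat.log 2 (τ n) + 1) := by ring
        omega
      calc 32 * Φ.T n (h n) ≤ 2 ^ 5 * 2 ^ (h n + c * (Nat.log 2 (τ n) + 1)) := by
            norm_num
            exact h5
        _ = 2 ^ (5 + (h n + c * (Nat.log 2 (τ n) + 1))) := by rw [← pow_add]
        _ ≤ _ := Nat.pow_le_pow_right (by norm_num) h6
    · have := hx x
      rw [hxn] at this
      exact this.symm

theorem bdT (τ g : ℕ → ℕ) (M : Alg) (p r : Polynomial ℕ) : (famT τ M p r).Bd τ g := by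
  obtain ⟨c, hc⟩ := poly_log p
  refine ⟨c, fun n η _ => ?_⟩
  show 2 ^ η * p.eval (τ n) ≤ _
  rw [pow_add]
  exact Nat.mul_le_mul_left _ (hc _)

theorem bdN (τ g : ℕ → ℕ) (hτ : ∀ n, n ≤ τ n) (S : Polynomial ℕ) (hg : ∀ n, g n ≤ S.eval (τ n))
    (M : Alg) (r : Polynomial ℕ) : (famN τ M r).Bd τ g := by
  obtain ⟨c, hc⟩ := poly_log (2 * M.p.comp (2 * S + 4 * Polynomial.X + r + 3))
  refine ⟨c, fun n η hη => ?_⟩
  show 2 ^ (η + 1) * M.p.eval (2 * η + 2 * τ n + 2 * n + r.eval n + 3) ≤ _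
  have h1 := hc (τ n)
  simp only [Polynomial.eval_mul, Polynomial.eval_comp, Polynomial.eval_add,
    Polynomial.eval_ofNat, Polynomial.eval_X] at h1
  have h2 := hg n
  have h3 := eval_mono r (hτ n)
  have h4 := hτ n
  have h5 : M.p.eval (2 * η + 2 * τ n + 2 * n + r.eval n + 3) ≤
      M.p.eval (2 * S.eval (τ n) + 4 * τ n + r.eval (τ n) + 3) := eval_mono _ (by omega)
  calc 2 ^ (η + 1) * M.p.eval (2 * η + 2 * τ n + 2 * n + r.eval n + 3) ≤
        2 ^ (η + 1) * M.p.eval (2 * S.eval (τ n) + 4 * τ n + r.eval (τ n) + 3) :=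
        Nat.mul_le_mul_left _ h5
    _ = 2 ^ η * (2 * M.p.eval (2 * S.eval (τ n) + 4 * τ n + r.eval (τ n) + 3)) := by
        rw [pow_succ]; ring
    _ ≤ 2 ^ η * 2 ^ (c * (Nat.log 2 (τ n) + 1)) := Nat.mul_le_mul_left _ h1
    _ = _ := by rw [← pow_add]

/-- The lower bound for one `g`. -/
theorem ae_low (τ g : ℕ → ℕ) (hτ : ∀ n, n ≤ τ n) (R₀ : Polynomial ℕ)
    (hτ2 : ∀ n, τ n ≤ 2 ^ R₀.eval n) (S : Polynomial ℕ) (hg : ∀ n, g n ≤ S.eval (τ n)) :
    ∀ᵐ A ∂ranO, ∀ h : ℕ → ℕ, (InGuessAdv τ h A (hitG g A) ∨ InTimeAdv τ h A (hitG g A)) →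
      ∃ c, ∀ n, g n ≤ h n + c * (Nat.log 2 (τ n) + 1) := by
  have hcp : Countable (Polynomial ℕ) := countable_polyN
  obtain ⟨c₀, hc₀⟩ := poly_log (S + 1)
  set R : Polynomial ℕ := Polynomial.C c₀ * (R₀ + 1) with hR
  have hR' : ∀ n, g n + 1 ≤ 2 ^ R.eval n := by
    intro n
    have h1 := hc₀ (τ n)
    simp only [Polynomial.eval_add, Polynomial.eval_one] at h1
    have h2 := hg n
    have h3 : Nat.log 2 (τ n) ≤ R₀.eval n := by
      have := Nat.log_mono_right (b := 2) (hτ2 n)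
      rwa [Nat.log_pow (by norm_num)] at this
    calc g n + 1 ≤ S.eval (τ n) + 1 := by omega
      _ ≤ 2 ^ (c₀ * (Nat.log 2 (τ n) + 1)) := h1
      _ ≤ 2 ^ R.eval n := by
        apply Nat.pow_le_pow_right (by norm_num)
        rw [hR]
        simp only [Polynomial.eval_mul, Polynomial.eval_C, Polynomial.eval_add,
          Polynomial.eval_one]
        exact Nat.mul_le_mul_left _ (by omega)
  have h1 : ∀ᵐ A ∂ranO, ∀ θ : Alg × Polynomial ℕ × Polynomial ℕ, ∃ n₀ : ℕ, ∀ n ≥ n₀,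
      1 ≤ g n → A ∉ Ev (famT τ θ.1 θ.2.1 θ.2.2) g n :=
    ae_all_iff.2 fun θ => ae_ev (goodT τ g _ _ _) R hR'
  have h2 : ∀ᵐ A ∂ranO, ∀ θ : Alg × Polynomial ℕ, ∃ n₀ : ℕ, ∀ n ≥ n₀,
      1 ≤ g n → A ∉ Ev (famN τ θ.1 θ.2) g n :=
    ae_all_iff.2 fun θ => ae_ev (goodN τ g _ _) R hR'
  filter_upwards [h1, h2] with A hA1 hA2 h hL
  rcases hL with ⟨V, a, r, ⟨M, hM⟩, ha, hx⟩ | ⟨M, p, r, a, ha, hx⟩
  · obtain ⟨n₀, hn₀⟩ := hA2 (M, r)
    refine small_of_not_ev (bdN τ g hτ S hg M r) hn₀ ha fun x => ?_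
    rw [hx x]
    refine exists_congr fun w => and_congr_right fun _ => ?_
    rw [hM, Option.some.injEq]
  · obtain ⟨n₀, hn₀⟩ := hA1 (M, p, r)
    exact small_of_not_ev (bdT τ g M p r) hn₀ ha hx

end Pool.Agent.TH93.GL
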