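import Pool.Agent.TH678.ETH.Defs

/-!
# Classes with a bounded number of guessed bits, relative to an oracle

(Continues `Pool.Agent.H620R2.Gauge.Defs` and `Pool.Agent.TH678.ETH.Defs`.)
-/

set_option autoImplicit false

namespace Pool.Agent.TH93.GL

open Pool.Agent.NPC Pool.Agent.H620R2.Gauge Pool.Agent.TH678.ETH

/-- From the string of `τ(n)` ones and `x` of length `n` the string of `g(n)` ones can be computed in
polynomial time. -/
def NiceT (τ g : ℕ → ℕ) : Prop :=
  ∃ F : List Bool → List Bool, PolyTime F ∧
    ∀ x, F (pairBits (List.replicate (τ x.length) true) x) = List.replicate (g x.length) true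

/-- Nondeterministic time polynomial in `τ(n)` with `g(n)` guessed bits: `x` is in `L` if and only
if for some string `w` of length at most `g |x|`, the verifier `V` accepts `w` and `x`. The verifier
gets in addition the string of `τ |x|` ones, and works in polynomial time relative to `A`. -/
def InGuess (τ g : ℕ → ℕ) (A : Oracle) (L : Set (List Bool)) : Prop :=
  ∃ V : List Bool → List Bool, IsFP A V ∧ ∀ x, x ∈ L ↔ ∃ w : List Bool, w.length ≤ g x.length ∧
    V (pairBits w (pairBits (List.replicate (τ x.length) true) x)) = [true]

/-- The same with polynomial advice: the verifier also gets `a |x|`. -/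
def InGuessAdv (τ g : ℕ → ℕ) (A : Oracle) (L : Set (List Bool)) : Prop :=
  ∃ (V : List Bool → List Bool) (a : ℕ → List Bool) (r : Polynomial ℕ), IsFP A V ∧
    (∀ n, (a n).length ≤ r.eval n) ∧ ∀ x, x ∈ L ↔ ∃ w : List Bool, w.length ≤ g x.length ∧
      V (pairBits w (pairBits (List.replicate (τ x.length) true) (pairBits x (a x.length)))) =
        [true]

/-- Deterministic time `2 ^ h(n)` times a polynomial in `τ(n)`, with polynomial advice: on the input
`x` of length `n` the algorithm works `T = 2 ^ h(n) * p(τ(n))` rounds, it gets the string of `T`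
ones, `x` and the advice `a n`, and questions with more than `T` bits are answered by `false`. -/
def InTimeAdv (τ h : ℕ → ℕ) (A : Oracle) (L : Set (List Bool)) : Prop :=
  ∃ (M : Alg) (p r : Polynomial ℕ) (a : ℕ → List Bool), (∀ n, (a n).length ≤ r.eval n) ∧
    ∀ x, x ∈ L ↔ M.run (upTo (2 ^ h x.length * p.eval (τ x.length)) A)
      (pairBits (List.replicate (2 ^ h x.length * p.eval (τ x.length)) true)
        (pairBits x (a x.length))) (2 ^ h x.length * p.eval (τ x.length)) [] = some [true]

/-- the test language -/
def hitG (g : ℕ → ℕ) (A : Oracle) : Set (List Bool) :=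
  {x | ∃ w : List Bool, w.length = g x.length ∧
    ∀ i < g x.length, A (x ++ w ++ List.replicate i true) = true}

end Pool.Agent.TH93.GL
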