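import Pool.Agent.TH93.GL.Defs
import Pool.Agent.TH678.ETH.Up2

/-!
# The blocks of the test language
-/

set_option autoImplicit false

namespace Pool.Agent.TH93.GL

open Pool.Agent.NPC Pool.Agent.H620R2.Gauge Finset H568R2 Pool.Agent.H676 Pool.Agent.TH678.ETH

/-- the `i`-th string of the witness number `j` of `x` -/
def wt (x : List Bool) (m j i : ℕ) : List Bool := x ++ bitsOf m j ++ List.replicate i true

theorem length_wt (x : List Bool) (m j i : ℕ) : (wt x m j i).length = x.length + m + i := by
  unfold wt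
  rw [List.length_append, List.length_append, length_bitsOf, List.length_replicate]

theorem wt_inj {x x' : List Bool} (hx : x.length = x'.length) {m j j' i i' : ℕ}
    (hj : j < 2 ^ m) (hj' : j' < 2 ^ m) (h : wt x m j i = wt x' m j' i') :
    x = x' ∧ j = j' ∧ i = i' := by
  have h1 : i = i' := by
    have := congrArg List.length h
    rw [length_wt, length_wt, hx] at this
    omega
  subst h1
  unfold wt at h
  have h2 := List.append_cancel_right h
  obtain ⟨h3, h4⟩ := List.append_inj h2 hx
  subst h3
  exact ⟨rfl, bitsOf_inj hj hj' h4, rfl⟩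

open Classical in
/-- the positions of the strings of the witness number `j` of `x` -/
noncomputable def WG (N m : ℕ) (x : List Bool) (j : Fin (2 ^ m)) : Finset (Fin N) :=
  univ.filter (fun e => ∃ i < m, str e = wt x m j.val i)

theorem WG_card {N m : ℕ} {x : List Bool} (hN : 2 ^ (x.length + 2 * m + 1) ≤ N + 1)
    (j : Fin (2 ^ m)) : (WG N m x j).card = m := by
  have hlt : ∀ i, i < m → idx (wt x m j.val i) < N := by
    intro i hi
    have h1 := idx_lt (wt x m j.val i)
    rw [length_wt] at h1
    have h2 : 2 ^ (x.length + m + i + 1) ≤ 2 ^ (x.length + 2 * m + 1) :=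
      Nat.pow_le_pow_right (by norm_num) (by omega)
    omega
  have h := Finset.card_bij (s := Finset.range m) (t := WG N m x j)
    (fun i hi => ⟨idx (wt x m j.val i), hlt i (Finset.mem_range.1 hi)⟩) (by
      intro i hi
      rw [WG, Finset.mem_filter]
      exact ⟨Finset.mem_univ _, i, Finset.mem_range.1 hi, str_idx _⟩) (by
      intro i hi i' hi' h
      have h1 : idx (wt x m j.val i) = idx (wt x m j.val i') := by simpa using h
      have h2 : wt x m j.val i = wt x m j.val i' := by
        rw [← str_idx (wt x m j.val i), h1, str_idx]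
      have := congrArg List.length h2
      rw [length_wt, length_wt] at this
      omega) (by
      intro e he
      rw [WG, Finset.mem_filter] at he
      obtain ⟨_, i, hi, h⟩ := he
      refine ⟨i, Finset.mem_range.2 hi, ?_⟩
      apply Fin.ext
      show idx (wt x m j.val i) = e
      rw [← h, idx_str])
  rw [← h, Finset.card_range]

theorem WG_disj {N m : ℕ} {x x' : List Bool} (hx : x.length = x'.length) {j j' : Fin (2 ^ m)}
    (hne : (x, j) ≠ (x', j')) : Disjoint (WG N m x j) (WG N m x' j') := by
  rw [Finset.disjoint_left]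
  intro e he he'
  rw [WG, Finset.mem_filter] at he he'
  obtain ⟨_, i, _, hi⟩ := he
  obtain ⟨_, i', _, hi'⟩ := he'
  rw [hi] at hi'
  obtain ⟨h1, h2, _⟩ := wt_inj hx j.2 j'.2 hi'
  exact hne (by rw [h1, Fin.ext h2])

/-- the block describes the test language -/
theorem hitG_iff {g : ℕ → ℕ} {N : ℕ} {x : List Bool}
    (hN : 2 ^ (x.length + 2 * g x.length + 1) ≤ N + 1) (A : Oracle) :
    HitF (WG N (g x.length) x) (pre N A) ↔ x ∈ hitG g A := by
  unfold HitF hitG
  rw [Set.mem_ofPred_eq]
  constructor
  · rintro ⟨j, hj⟩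
    refine ⟨bitsOf (g x.length) j.val, length_bitsOf _ _, fun i hi => ?_⟩
    have hlt : idx (wt x (g x.length) j.val i) < N := by
      have h1 := idx_lt (wt x (g x.length) j.val i)
      rw [length_wt] at h1
      have h2 : 2 ^ (x.length + g x.length + i + 1) ≤ 2 ^ (x.length + 2 * g x.length + 1) :=
        Nat.pow_le_pow_right (by norm_num) (by omega)
      omega
    have h3 := hj ⟨idx (wt x (g x.length) j.val i), hlt⟩ (by
      rw [WG, Finset.mem_filter]
      exact ⟨Finset.mem_univ _, i, hi, str_idx _⟩)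
    unfold pre at h3
    simp only at h3
    rwa [str_idx] at h3
  · rintro ⟨w, hw, h⟩
    obtain ⟨j, hj, hjw⟩ := exists_bitsOf w
    rw [hw] at hj hjw
    refine ⟨⟨j, hj⟩, fun e he => ?_⟩
    rw [WG, Finset.mem_filter] at he
    obtain ⟨_, i, hi, hei⟩ := he
    unfold pre
    rw [hei]
    unfold wt
    rw [hjw]
    exact h i hi

open Classical in
/-- Shallow decision trees do not decide the test language. -/
theorem ev_bound {n m N T : ℕ} (hm : 1 ≤ m) (hT : 32 * T ≤ 2 ^ m)
    (hN : 2 ^ (n + 2 * m + 1) ≤ N + 1) {α : Type*} (S : Finset α)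
    (F : α → Fin (2 ^ n) → (Fin N → Bool) → Bool) (hF : ∀ s ∈ S, ∀ k, DTr T (F s k))
    (P : (Fin N → Bool) → Prop) (hP : ∀ a, P a → ∃ s ∈ S, ∀ k : Fin (2 ^ n),
      (F s k a = true ↔ HitF (WG N m (bitsOf n k.val)) a)) :
    Ex unif (fun a : Fin N → Bool => if P a then (1 : ℝ) else 0) ≤
      S.card * (7 / 8) ^ 2 ^ n := by
  refine Ex_union S (fun s a => ∀ k : Fin (2 ^ n),
      (F s k a = true ↔ HitF (WG N m (bitsOf n k.val)) a)) ((7 / 8) ^ 2 ^ n) (fun s hs => ?_) P hP
  have h1 := hit_seq (T := T) (κ := Fin (2 ^ n)) (J := Fin (2 ^ m)) hm hT (by simp)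
    (fun k => WG N m (bitsOf n k.val)) (fun k j => WG_card (by rwa [length_bitsOf]) j) (by
      intro k j k' j' hne
      apply WG_disj
      · rw [length_bitsOf, length_bitsOf]
      · intro he
        apply hne
        rw [Prod.mk.injEq] at he
        rw [Fin.ext (bitsOf_inj k.2 k'.2 he.1), he.2]) (F s) (hF s hs)
  rw [Fintype.card_fin] at h1
  convert h1

end Pool.Agent.TH93.GL
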