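import Pool.Agent.TH93.GL.Law

/-!
# The two families: deterministic algorithms, and algorithms with guessed bits
-/

set_option autoImplicit false

namespace Pool.Agent.TH93.GL

open Pool.Agent.NPC Pool.Agent.H620R2.Gauge Finset H568R2 Pool.Agent.H676 Pool.Agent.TH678.ETH
open MeasureTheory Filter

section Or

variable {I : Type*} [Fintype I] [DecidableEq I]

theorem dtr_two {s t : ℕ} (φ : Bool → Bool → Bool) : ∀ {f k : (I → Bool) → Bool},
    DTr s f → DTr t k → DTr (s + t) (fun z => φ (f z) (k z)) := by
  induction s with
  | zero =>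
    rintro f k ⟨c, hc⟩ hk
    simp only [hc, Nat.zero_add]
    exact hk.comp (φ c)
  | succ s ih =>
    intro f k hf hk
    rcases hf with ⟨c, hc⟩ | ⟨i, hi⟩
    · simp only [hc]
      exact (hk.comp (φ c)).mono (by omega)
    · have h1 : s + 1 + t = (s + t) + 1 := by omega
      rw [h1]
      exact Or.inr ⟨i, fun b => ih (hi b) (DTr_update hk i b)⟩

theorem dtr_any {α : Type*} {t : ℕ} (l : List α) (f : α → (I → Bool) → Bool)
    (hf : ∀ w ∈ l, DTr t (f w)) : DTr (l.length * t) (fun z => l.any fun w => f w z) := by
  induction l with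
  | nil => exact DTr.const ⟨false, fun z => rfl⟩
  | cons w l ih =>
    have h1 := dtr_two (fun b c => b || c) (hf w (by simp))
      (ih fun v hv => hf v (List.mem_cons_of_mem _ hv))
    have h2 : (w :: l).length * t = t + l.length * t := by
      rw [List.length_cons]; ring
    rw [h2]
    exact h1

end Or

/-- the length of the input with the string of `τ n` ones and the advice -/
noncomputable def lenP (r : Polynomial ℕ) : Polynomial ℕ := 4 * Polynomial.X + 2 + r

/-- deterministic algorithms -/
noncomputable def famT (τ : ℕ → ℕ) (M : Alg) (p r : Polynomial ℕ) : Fam where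
  F η a x A := M.run (upTo (2 ^ η * p.eval (τ x.length)) A)
      (pairBits (List.replicate (2 ^ η * p.eval (τ x.length)) true)
        (pairBits x a)) (2 ^ η * p.eval (τ x.length)) [] = some [true]
  T n η := 2 ^ η * p.eval (τ n)
  r := r

theorem goodT (τ g : ℕ → ℕ) (M : Alg) (p r : Polynomial ℕ) : (famT τ M p r).Good g where
  loc := by
    intro n
    refine ⟨2 ^ g n * p.eval (τ n), ?_⟩
    intro η hη a x _ hx A A' hA
    have h1 : 2 ^ η * p.eval (τ n) ≤ 2 ^ g n * p.eval (τ n) :=
      Nat.mul_le_mul_right _ (Nat.pow_le_pow_right (by norm_num) hη)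
    have h2 : upTo (2 ^ η * p.eval (τ x.length)) A = upTo (2 ^ η * p.eval (τ x.length)) A' := by
      funext q
      unfold upTo
      by_cases hq : q.length ≤ 2 ^ η * p.eval (τ x.length)
      · rw [hA q (by rw [hx] at hq; omega)]
      · simp [hq]
    show M.run _ _ _ _ = _ ↔ M.run _ _ _ _ = _
    rw [h2]
  tree := by
    intro n η _ a x _ hx N
    refine ⟨fun z => decide (M.run (upTo (2 ^ η * p.eval (τ x.length)) (orc N z))
      (pairBits (List.replicate (2 ^ η * p.eval (τ x.length)) true)
        (pairBits x a)) (2 ^ η * p.eval (τ x.length)) [] = some [true]), ?_, fun z => ?_⟩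
    · have := dtr_upTo M N (2 ^ η * p.eval (τ x.length)) (pairBits (List.replicate
        (2 ^ η * p.eval (τ x.length)) true) (pairBits x a)) (2 ^ η * p.eval (τ x.length)) []
      rw [hx] at this ⊢
      exact this
    · rw [decide_eq_true_iff]
      exact Iff.rfl

theorem card_advs1 (m : ℕ) : (advs m).card + 1 ≤ 2 ^ (m + 1) := by
  have h1 : ∀ k : ℕ, ((Finset.range k).biUnion strsOf).card + 1 ≤ 2 ^ k := by
    intro k
    induction k with
    | zero => simp
    | succ k ih =>
      rw [Finset.range_add_one, Finset.biUnion_insert]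
      have h2 := Finset.card_union_le (strsOf k) ((Finset.range k).biUnion strsOf)
      have h3 := card_strsOf k
      have h4 : 2 ^ (k + 1) = 2 ^ k + 2 ^ k := by ring
      omega
  exact h1 (m + 1)

/-- algorithms with guessed bits -/
noncomputable def famN (τ : ℕ → ℕ) (M : Alg) (r : Polynomial ℕ) : Fam where
  F η a x A := ∃ w : List Bool, w.length ≤ η ∧
    M.out A (pairBits w (pairBits (List.replicate (τ x.length) true) (pairBits x a))) =
      some [true]
  T n η := 2 ^ (η + 1) * M.p.eval (2 * η + 2 * τ n + 2 * n + r.eval n + 3)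
  r := r

theorem lenN {τ : ℕ → ℕ} {r : Polynomial ℕ} {η n : ℕ} {w x a : List Bool} (hw : w.length ≤ η)
    (hx : x.length = n) (ha : a.length ≤ r.eval n) :
    (pairBits w (pairBits (List.replicate (τ x.length) true) (pairBits x a))).length ≤
      2 * η + 2 * τ n + 2 * n + r.eval n + 3 := by
  rw [length_pairBits, length_pairBits, length_pairBits, List.length_replicate, hx]
  omega

theorem goodN (τ g : ℕ → ℕ) (M : Alg) (r : Polynomial ℕ) : (famN τ M r).Good g where
  loc := by
    intro n
    obtain ⟨qb, hqb⟩ := Alg.out_local M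
    refine ⟨qb.eval (2 * g n + 2 * τ n + 2 * n + r.eval n + 3), ?_⟩
    intro η hη a x ha hx A A' hA
    have h1 : ∀ w : List Bool, w.length ≤ η →
        M.out A (pairBits w (pairBits (List.replicate (τ x.length) true) (pairBits x a))) =
        M.out A' (pairBits w (pairBits (List.replicate (τ x.length) true) (pairBits x a))) := by
      intro w hw
      obtain ⟨Q, _, hQl, hQA⟩ := hqb A' (pairBits w (pairBits (List.replicate (τ x.length) true)
        (pairBits x a)))
      apply hQA
      intro q hq
      apply hA
      refine (hQl q hq).trans (eval_mono _ ?_)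
      exact lenN (hw.trans hη) hx ha
    constructor
    · rintro ⟨w, hw, h⟩
      exact ⟨w, hw, by rw [← h1 w hw]; exact h⟩
    · rintro ⟨w, hw, h⟩
      exact ⟨w, hw, by rw [h1 w hw]; exact h⟩
  tree := by
    classical
    intro n η _ a x ha hx N
    refine ⟨fun z => ((advs η).filter fun w => w.length ≤ η).toList.any fun w =>
      decide (M.out (orc N z) (pairBits w (pairBits (List.replicate (τ x.length) true)
        (pairBits x a))) = some [true]), ?_, fun z => ?_⟩
    · refine (dtr_any (I := Fin N) (t := M.p.eval (2 * η + 2 * τ n + 2 * n + r.eval n + 3)) _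
        (fun w z => decide (M.out (orc N z) (pairBits w (pairBits
          (List.replicate (τ x.length) true) (pairBits x a))) = some [true])) ?_).mono ?_
      · intro w hw
        rw [Finset.mem_toList, Finset.mem_filter] at hw
        exact (dtr_out M N _).mono (eval_mono _ (lenN hw.2 hx ha))
      · apply Nat.mul_le_mul_right
        rw [Finset.length_toList]
        have h1 := card_advs1 η
        have h2 := Finset.card_filter_le (advs η) (fun w => w.length ≤ η)
        omega
    · rw [List.any_eq_true]
      constructor
      · rintro ⟨w, hw, h⟩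
        rw [Finset.mem_toList, Finset.mem_filter] at hw
        exact ⟨w, hw.2, of_decide_eq_true h⟩
      · rintro ⟨w, hw, h⟩
        refine ⟨w, ?_, decide_eq_true h⟩
        rw [Finset.mem_toList, Finset.mem_filter]
        exact ⟨mem_advs hw, hw⟩

end Pool.Agent.TH93.GL
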