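import Pool.Agent.TH93.GL.Blk
import Pool.Agent.TH683.AT.Low

/-!
# Decision trees and the test language relative to almost all oracles
-/

set_option autoImplicit false

namespace Pool.Agent.TH93.GL

open Pool.Agent.NPC Pool.Agent.H620R2.Gauge Finset H568R2 Pool.Agent.H676 Pool.Agent.TH678.ETH
open MeasureTheory Filter
open Pool.Agent.TH683.AT (poly_small)

/-- the strings of length at most `m` -/
def advs (m : ℕ) : Finset (List Bool) := (Finset.range (m + 1)).biUnion strsOf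

theorem mem_advs {m : ℕ} {a : List Bool} (h : a.length ≤ m) : a ∈ advs m :=
  Finset.mem_biUnion.2 ⟨a.length, Finset.mem_range.2 (by omega), mem_strsOf a⟩

theorem card_advs (m : ℕ) : (advs m).card ≤ 2 ^ (2 * m) := by
  have h1 : (advs m).card ≤ (m + 1) * 2 ^ m := by
    unfold advs
    refine Finset.card_biUnion_le.trans ?_
    rw [← Finset.card_range (m + 1), ← smul_eq_mul]
    simp only [Finset.card_range]
    refine (Finset.sum_le_sum (g := fun _ => 2 ^ m) fun c hc => ?_).trans ?_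
    · rw [Finset.mem_range, Nat.lt_succ_iff] at hc
      exact (card_strsOf c).trans (Nat.pow_le_pow_right (by norm_num) hc)
    · rw [Finset.sum_const, Finset.card_range]
  have h2 : m + 1 ≤ 2 ^ m := Nat.lt_two_pow_self
  calc _ ≤ (m + 1) * 2 ^ m := h1
    _ ≤ 2 ^ m * 2 ^ m := Nat.mul_le_mul_right _ h2
    _ = _ := by rw [← pow_add]; congr 1; ring

theorem num_small (P : Polynomial ℕ) : ∃ n₀, ∀ n ≥ n₀,
    (2 : ℝ) ^ P.eval n * (7 / 8) ^ 2 ^ n ≤ (1 / 2) ^ (4 * n) := by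
  obtain ⟨n₀, hn₀⟩ := poly_small (8 * P + 32 * Polynomial.X)
  refine ⟨n₀, fun n hn => ?_⟩
  have h1 := hn₀ n hn
  have h2 : (8 * P + 32 * Polynomial.X).eval n = 8 * (P.eval n + 4 * n) := by
    simp only [Polynomial.eval_add, Polynomial.eval_mul, Polynomial.eval_X,
      Polynomial.eval_ofNat]
    ring
  rw [h2] at h1
  have h3 : ((7 : ℝ) / 8) ^ 2 ^ n ≤ (1 / 2) ^ (P.eval n + 4 * n) := by
    calc ((7 : ℝ) / 8) ^ 2 ^ n ≤ (7 / 8) ^ (8 * (P.eval n + 4 * n)) :=
          pow_le_pow_of_le_one (by norm_num) (by norm_num) h1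
      _ = ((7 / 8) ^ 8) ^ (P.eval n + 4 * n) := by rw [pow_mul]
      _ ≤ _ := pow_le_pow_left₀ (by norm_num) (by norm_num) _
  calc (2 : ℝ) ^ P.eval n * (7 / 8) ^ 2 ^ n ≤
        2 ^ P.eval n * (1 / 2) ^ (P.eval n + 4 * n) := by gcongr
    _ = (2 ^ P.eval n * (1 / 2) ^ P.eval n) * (1 / 2) ^ (4 * n) := by
        rw [pow_add]; ring
    _ = _ := by
        rw [← mul_pow]
        norm_num

/-- A family of predicates of the oracle, with parameters `η` and `a` (the advice) -/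
structure Fam where
  /-- the predicate -/
  F : ℕ → List Bool → List Bool → Oracle → Prop
  /-- the depth of the trees -/
  T : ℕ → ℕ → ℕ
  /-- the bound for the advice -/
  r : Polynomial ℕ

/-- The family consists of local predicates with shallow decision trees. -/
structure Fam.Good (Φ : Fam) (g : ℕ → ℕ) : Prop where
  loc : ∀ n, ∃ B : ℕ, ∀ η ≤ g n, ∀ a x : List Bool, a.length ≤ Φ.r.eval n → x.length = n →
    ∀ A A' : Oracle, (∀ q : List Bool, q.length ≤ B → A q = A' q) → (Φ.F η a x A ↔ Φ.F η a x A')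
  tree : ∀ n, ∀ η ≤ g n, ∀ a x : List Bool, a.length ≤ Φ.r.eval n → x.length = n → ∀ N : ℕ,
    ∃ f : (Fin N → Bool) → Bool, DTr (Φ.T n η) f ∧ ∀ z, (f z = true ↔ Φ.F η a x (orc N z))

/-- the event at length `n` -/
def Ev (Φ : Fam) (g : ℕ → ℕ) (n : ℕ) : Set Oracle :=
  {A | ∃ η ≤ g n, 32 * Φ.T n η ≤ 2 ^ g n ∧ ∃ a : List Bool, a.length ≤ Φ.r.eval n ∧
    ∀ x : List Bool, x.length = n → (Φ.F η a x A ↔ x ∈ hitG g A)}

open Classical in
/-- the event is determined by a prefix and has a small probability -/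
theorem ev_prefix {Φ : Fam} {g : ℕ → ℕ} (hΦ : Φ.Good g) {n : ℕ} (hg : 1 ≤ g n) {B : ℕ}
    (hB : ∀ η ≤ g n, ∀ a x : List Bool, a.length ≤ Φ.r.eval n → x.length = n →
    ∀ A A' : Oracle, (∀ q : List Bool, q.length ≤ B → A q = A' q) →
      (Φ.F η a x A ↔ Φ.F η a x A')) {N : ℕ} (hN : 2 ^ (n + 2 * g n + 1) ≤ N + 1)
    (hN' : 2 ^ (B + 1) ≤ N + 1) :
    ∃ P : (Fin N → Bool) → Prop, (∀ A ∈ Ev Φ g n, P (pre N A)) ∧
      Ex unif (fun a : Fin N → Bool => if P a then (1 : ℝ) else 0) ≤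
        (g n + 1) * 2 ^ (2 * Φ.r.eval n) * (7 / 8) ^ 2 ^ n := by
  classical
  have hT : ∀ η : ℕ, ∀ a x : List Bool, ∃ f : (Fin N → Bool) → Bool,
      (η ≤ g n → a.length ≤ Φ.r.eval n → x.length = n →
        DTr (Φ.T n η) f ∧ ∀ z, (f z = true ↔ Φ.F η a x (orc N z))) := by
    intro η a x
    by_cases h : η ≤ g n ∧ a.length ≤ Φ.r.eval n ∧ x.length = n
    · obtain ⟨f, hf⟩ := hΦ.tree n η h.1 a x h.2.1 h.2.2 N
      exact ⟨f, fun _ _ _ => hf⟩
    · exact ⟨fun _ => true, fun h1 h2 h3 => absurd ⟨h1, h2, h3⟩ h⟩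
  choose f hf using hT
  set S : Finset (ℕ × List Bool) := ((Finset.range (g n + 1)) ×ˢ (advs (Φ.r.eval n))).filter
    (fun p => 32 * Φ.T n p.1 ≤ 2 ^ g n ∧ p.2.length ≤ Φ.r.eval n) with hS
  set T₀ : ℕ := 2 ^ g n / 32 with hT₀
  have h32 : 32 * T₀ ≤ 2 ^ g n := Nat.mul_div_le _ _
  refine ⟨fun z => ∃ p ∈ S, ∀ k : Fin (2 ^ n), (f p.1 p.2 (bitsOf n k.val) z = true ↔
    HitF (WG N (g n) (bitsOf n k.val)) z), ?_, ?_⟩
  · rintro A ⟨η, hη, hη2, a, ha, hx⟩
    refine ⟨(η, a), ?_, fun k => ?_⟩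
    · rw [hS, Finset.mem_filter, Finset.mem_product, Finset.mem_range]
      exact ⟨⟨by dsimp only; omega, mem_advs ha⟩, hη2, ha⟩
    · have hlen : (bitsOf n k.val).length = n := length_bitsOf _ _
      rw [(hf η a _ hη ha hlen).2]
      have h1 := hitG_iff (g := g) (N := N) (x := bitsOf n k.val) (by rwa [hlen]) A
      rw [hlen] at h1
      rw [h1, ← hx _ hlen]
      apply hB η hη a _ ha hlen
      intro q hq
      apply orc_pre
      have h2 := idx_lt q
      have h3 : 2 ^ (q.length + 1) ≤ 2 ^ (B + 1) := Nat.pow_le_pow_right (by norm_num) (by omega)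
      omega
  · have h1 := ev_bound (n := n) (T := T₀) hg h32 hN S
      (fun p k => f p.1 p.2 (bitsOf n k.val)) (by
        intro p hp k
        rw [hS, Finset.mem_filter, Finset.mem_product, Finset.mem_range] at hp
        refine ((hf p.1 p.2 _ (by omega) hp.2.2 (length_bitsOf _ _)).1).mono ?_
        rw [hT₀, Nat.le_div_iff_mul_le (by norm_num)]
        omega) _ (fun z hz => hz)
    refine h1.trans ?_
    apply mul_le_mul_of_nonneg_right _ (by positivity)
    have h2 : S.card ≤ (g n + 1) * 2 ^ (2 * Φ.r.eval n) := by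
      refine (Finset.card_filter_le _ _).trans ?_
      rw [Finset.card_product, Finset.card_range]
      exact Nat.mul_le_mul_left _ (card_advs _)
    exact_mod_cast h2

open Classical in
/-- Relative to almost every oracle, the event happens for finitely many lengths only. -/
theorem ae_ev {Φ : Fam} {g : ℕ → ℕ} (hΦ : Φ.Good g) (R : Polynomial ℕ)
    (hR : ∀ n, g n + 1 ≤ 2 ^ R.eval n) :
    ∀ᵐ A ∂ranO, ∃ n₀ : ℕ, ∀ n ≥ n₀, 1 ≤ g n → A ∉ Ev Φ g n := by
  obtain ⟨n₀, hn₀⟩ := num_small (R + 2 * Φ.r)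
  have hpr : ∀ n ≥ n₀, ranO {A | 1 ≤ g n ∧ A ∈ Ev Φ g n} ≤ ENNReal.ofReal ((1 / 2) ^ n) := by
    intro n hn
    by_cases hg : 1 ≤ g n
    · obtain ⟨B, hB⟩ := hΦ.loc n
      obtain ⟨P, hP, hPb⟩ := ev_prefix hΦ hg hB (N := 2 ^ (n + 2 * g n + 1) + 2 ^ (B + 1))
        ((Nat.le_add_right _ _).trans (Nat.le_succ _))
        ((Nat.le_add_left _ _).trans (Nat.le_succ _))
      refine (measure_mono fun A hA => hP A hA.2).trans ?_
      refine (Pool.Agent.TH683.CP.ranO_pre _).trans (ENNReal.ofReal_le_ofReal ?_)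
      refine hPb.trans ?_
      have h1 : ((g n : ℝ) + 1) ≤ 2 ^ R.eval n := by exact_mod_cast hR n
      have h2 := hn₀ n hn
      simp only [Polynomial.eval_add, Polynomial.eval_mul, Polynomial.eval_ofNat] at h2
      calc ((g n : ℝ) + 1) * 2 ^ (2 * Φ.r.eval n) * (7 / 8) ^ 2 ^ n ≤
            2 ^ R.eval n * 2 ^ (2 * Φ.r.eval n) * (7 / 8) ^ 2 ^ n := by gcongr
        _ = 2 ^ (R.eval n + 2 * Φ.r.eval n) * (7 / 8) ^ 2 ^ n := by rw [← pow_add]
        _ ≤ (1 / 2) ^ (4 * n) := h2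
        _ ≤ (1 / 2) ^ n := pow_le_pow_of_le_one (by norm_num) (by norm_num) (by omega)
    · have : {A : Oracle | 1 ≤ g n ∧ A ∈ Ev Φ g n} = ∅ := by
        ext A
        simp [hg]
      rw [this, measure_empty]
      exact zero_le
  have hsum : ∑' m, ranO {A | 1 ≤ g (n₀ + m) ∧ A ∈ Ev Φ g (n₀ + m)} ≠ ⊤ := by
    have h1 : ∑' m, ranO {A | 1 ≤ g (n₀ + m) ∧ A ∈ Ev Φ g (n₀ + m)} ≤
        ∑' m : ℕ, (2⁻¹ : ENNReal) ^ m := by
      refine ENNReal.tsum_le_tsum fun m => ?_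
      refine (hpr (n₀ + m) (by omega)).trans ?_
      have h2 : ENNReal.ofReal ((1 / 2) ^ (n₀ + m)) ≤ ENNReal.ofReal ((1 / 2) ^ m) := by
        apply ENNReal.ofReal_le_ofReal
        exact pow_le_pow_of_le_one (by norm_num) (by norm_num) (by omega)
      refine h2.trans (le_of_eq ?_)
      rw [ENNReal.ofReal_pow (by norm_num), one_div, ENNReal.ofReal_inv_of_pos (by positivity)]
      simp
    refine ne_top_of_le_ne_top ?_ h1
    rw [ENNReal.tsum_geometric, ENNReal.one_sub_inv_two, inv_inv]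
    exact ENNReal.ofNat_ne_top
  have h2 := ae_eventually_notMem hsum
  filter_upwards [h2] with A hA
  obtain ⟨n₁, hn₁⟩ := eventually_atTop.1 hA
  refine ⟨n₀ + n₁, fun m hm hg hA' => ?_⟩
  have := hn₁ (m - n₀) (by omega)
  rw [Nat.add_sub_cancel' (by omega)] at this
  exact this ⟨hg, hA'⟩

end Pool.Agent.TH93.GL
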