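import Pool.Agent.TH93.GL.Low
import Pool.Agent.TH93.GL.Up

/-!
# The law for the number of guessed bits
-/

set_option autoImplicit false

namespace Pool.Agent.TH93.GL

open Pool.Agent.NPC Pool.Agent.H620R2.Gauge Pool.Agent.H622R2 Pool.Agent.TH678.ETH MeasureTheory

theorem InGuess.adv {τ h : ℕ → ℕ} {A : Oracle} {L : Set (List Bool)} (hL : InGuess τ h A L) :
    InGuessAdv τ h A L := by
  obtain ⟨V, hV, hx⟩ := hL
  have h1 : Poly (fun z : List Bool => unpair z) := poly_unpair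
  have h2 : Poly (fun z : List Bool => unpair (unpair z).2) := poly_unpair.comp (Poly.snd h1)
  have h3 : Poly (fun z : List Bool => unpair (unpair (unpair z).2).2) :=
    poly_unpair.comp (Poly.snd h2)
  refine ⟨fun z => V (pairBits (unpair z).1 (pairBits (unpair (unpair z).2).1
    (unpair (unpair (unpair z).2).2).1)), fun _ => [], 0, hV.precomp
      (poly_pairBits (Poly.fst h1) (poly_pairBits (Poly.fst h2) (Poly.fst h3))), by simp,
      fun x => ?_⟩
  simp only [unpair_pairBits]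
  exact hx x

/-- **The law for the number of guessed bits.** -/
theorem law (τ : ℕ → ℕ) (hτ : ∀ n, n ≤ τ n) (R₀ : Polynomial ℕ)
    (hτ2 : ∀ n, τ n ≤ 2 ^ R₀.eval n) :
    ∀ᵐ A ∂ranO, ∀ g h : ℕ → ℕ, NiceT τ g → List.TFAE [
      ∀ L, InGuess τ g A L → InGuess τ h A L,
      ∀ L, InGuess τ g A L → InGuessAdv τ h A L ∨ InTimeAdv τ h A L,
      ∃ c, ∀ n, g n ≤ h n + c * (Nat.log 2 (τ n) + 1)] := by
  have key : ∀ᵐ A ∂ranO, ∀ g, NiceT τ g → ∀ h : ℕ → ℕ,
      (InGuessAdv τ h A (hitG g A) ∨ InTimeAdv τ h A (hitG g A)) →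
      ∃ c, ∀ n, g n ≤ h n + c * (Nat.log 2 (τ n) + 1) := by
    refine (ae_ball_iff (countable_niceT τ)).2 fun g hg => ?_
    obtain ⟨S, hS⟩ := hg.poly hτ
    exact ae_low τ g hτ R₀ hτ2 S hS
  filter_upwards [key] with A hA g h hg
  tfae_have 1 → 2 := fun h1 L hL => Or.inl (h1 L hL).adv
  tfae_have 2 → 3 := fun h2 => hA g hg h (h2 _ (hitG_guess hg A))
  tfae_have 3 → 1 := by
    rintro ⟨c, hc⟩ L hL
    exact hL.save hg hc
  tfae_finish

theorem tau_lin (n : ℕ) : n ≤ 2 ^ (Polynomial.X : Polynomial ℕ).eval n := by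
  rw [Polynomial.eval_X]
  exact Nat.lt_two_pow_self.le

/-- The law for polynomial time. -/
theorem law_poly : ∀ᵐ A ∂ranO, ∀ g h : ℕ → ℕ, NiceT (fun n => n) g → List.TFAE [
      ∀ L, InGuess (fun n => n) g A L → InGuess (fun n => n) h A L,
      ∀ L, InGuess (fun n => n) g A L →
        InGuessAdv (fun n => n) h A L ∨ InTimeAdv (fun n => n) h A L,
      ∃ c, ∀ n, g n ≤ h n + c * (Nat.log 2 n + 1)] :=
  law (fun n => n) (fun _ => le_rfl) Polynomial.X tau_lin

/-- The law for linear-exponential time. -/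
theorem law_exp : ∀ᵐ A ∂ranO, ∀ g h : ℕ → ℕ, NiceT (fun n => 2 ^ n) g → List.TFAE [
      ∀ L, InGuess (fun n => 2 ^ n) g A L → InGuess (fun n => 2 ^ n) h A L,
      ∀ L, InGuess (fun n => 2 ^ n) g A L →
        InGuessAdv (fun n => 2 ^ n) h A L ∨ InTimeAdv (fun n => 2 ^ n) h A L,
      ∃ c, ∀ n, g n ≤ h n + c * (n + 1)] := by
  filter_upwards [law (fun n => 2 ^ n) (fun n => Nat.lt_two_pow_self.le) Polynomial.X
    (fun n => by rw [Polynomial.eval_X])] with A hA g h hg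
  have h1 := hA g h hg
  simp only [Nat.log_pow (by norm_num : 1 < 2)] at h1
  exact h1

end Pool.Agent.TH93.GL
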