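import Pool.Agent.TH93.GL.Main
import Pool.Agent.H620R2.Gauge2.V6
import Pool.Agent.TH678.PN.Main

/-!
# The gauges of the oracles relative to which guessed bits can be saved
-/

set_option autoImplicit false

namespace Pool.Agent.TH93.GL

open Pool.Agent.NPC Pool.Agent.H620R2.Gauge Pool.Agent.H622R2 Pool.Agent.TH678.ETH MeasureTheory
open Filter H568R2

theorem asymG (P Q : Polynomial ℕ) (f : ℕ → ℝ) (hf : Cond f) (δ : ℝ) (hδ : 0 < δ) (n₀ : ℕ) :
    ∃ n N : ℕ, n₀ ≤ n ∧ 2 ^ (Q.eval n + 1) ≤ N ∧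
      2 ^ P.eval n * (7 / 8 : ℝ) ^ 2 ^ n * 2 ^ f N ≤ δ := by
  obtain ⟨n, N, ⟨⟨a1, a2, a3, a4⟩, a5⟩, b, c⟩ := V69_choose Q f hf _
    ((V69_ev P δ).and (eventually_ge_atTop n₀))
  set u : ℕ := n / 2 with hu
  have h2u : 2 * u ≤ n := Nat.mul_div_le n 2
  refine ⟨n, N, a5, b, ?_⟩
  have hF : 16 * f N ≤ (2 : ℝ) ^ u := by
    have h1 : f N ≤ 2 ^ ((u : ℝ) - 4) :=
      c.trans (Real.rpow_le_rpow_of_exponent_le (by norm_num) (by linarith))
    rw [Real.rpow_sub (by norm_num), Real.rpow_natCast] at h1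
    have h2 : (2 : ℝ) ^ (4 : ℝ) = 16 := by norm_num
    rw [h2] at h1
    linarith
  have hp : 16 * ((P.eval n : ℕ) : ℝ) ≤ (2 : ℝ) ^ u := by
    have : 16 * P.eval n ≤ 2 ^ u := by omega
    exact_mod_cast this
  have hT1 : (8 : ℝ) ≤ (2 : ℝ) ^ u := by
    have : 8 ≤ 2 ^ u := by omega
    exact_mod_cast this
  have hh := V69_half (2 ^ u)
  push_cast at hh
  have hm := V69_real δ hδ (P.eval n : ℕ) (2 ^ u) (f N) hp hF a2 hT1
  refine le_trans ?_ hm
  rw [Real.rpow_natCast]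
  have h3 : (0 : ℝ) < 2 ^ f N := by positivity
  have h4 : (7 / 8 : ℝ) ^ 2 ^ n ≤ 2 * 2 ^ (-(2 : ℝ) ^ u / 2) := by
    have e1 : 4 * 2 ^ u ≤ 2 ^ n := by
      have : 2 ^ (u + 2) ≤ 2 ^ n := Nat.pow_le_pow_right (by norm_num) (by omega)
      rw [pow_add] at this
      omega
    calc (7 / 8 : ℝ) ^ 2 ^ n ≤ (7 / 8) ^ (4 * 2 ^ u) :=
          pow_le_pow_of_le_one (by norm_num) (by norm_num) e1
      _ = ((7 / 8) ^ 4) ^ 2 ^ u := by rw [pow_mul]
      _ ≤ (2 / 3) ^ 2 ^ u := pow_le_pow_left₀ (by norm_num) (by norm_num) _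
      _ ≤ 2 ^ (-((2 : ℝ) ^ u / 2)) := hh
      _ = 2 ^ (-(2 : ℝ) ^ u / 2) := by congr 1; ring
      _ ≤ _ := by
        have : (0 : ℝ) < 2 ^ (-(2 : ℝ) ^ u / 2) := by positivity
        linarith
  have h5 : (-((2 : ℝ) ^ u / 2)) = -(2 : ℝ) ^ u / 2 := by ring
  rw [h5]
  gcongr

/-- The oracles for which the family is right at all large lengths. -/
theorem null_fam {f : ℕ → ℝ} (hf : Cond f) {Φ : Fam} {g : ℕ → ℕ} (hΦ : Φ.Good g)
    (S : Polynomial ℕ) (hS : ∀ n, g n ≤ S.eval n)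
    (B : Polynomial ℕ) (hB : ∀ n, ∀ η ≤ g n, ∀ a x : List Bool, a.length ≤ Φ.r.eval n →
      x.length = n → ∀ A A' : Oracle, (∀ q : List Bool, q.length ≤ B.eval n → A q = A' q) →
      (Φ.F η a x A ↔ Φ.F η a x A')) (n₀ : ℕ) (hg0 : ∀ n ≥ n₀, 1 ≤ g n) :
    Null f {A | ∀ n ≥ n₀, A ∈ Ev Φ g n} := by
  classical
  intro δ hδ
  obtain ⟨n, N, hn, hN, hb⟩ := asymG (S + 2 * Φ.r) (B + Polynomial.X + 2 * S) f hf δ hδ n₀
  simp only [Polynomial.eval_add, Polynomial.eval_mul, Polynomial.eval_ofNat,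
    Polynomial.eval_X] at hN hb
  have hSn := hS n
  obtain ⟨P, hP, hPb⟩ := ev_prefix hΦ (hg0 n hn) (hB n) (N := N) (by
      have : 2 ^ (n + 2 * g n + 1) ≤ 2 ^ (B.eval n + n + 2 * S.eval n + 1) :=
        Nat.pow_le_pow_right (by norm_num) (by omega)
      omega) (by
      have : 2 ^ (B.eval n + 1) ≤ 2 ^ (B.eval n + n + 2 * S.eval n + 1) :=
        Nat.pow_le_pow_right (by norm_num) (by omega)
      omega)
  refine cover_of_event P {A | ∀ n ≥ n₀, A ∈ Ev Φ g n} (fun A hA => hP A (hA n hn)) f δ ?_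
  refine le_trans (mul_le_mul_of_nonneg_right (hPb.trans ?_) (by positivity)) hb
  apply mul_le_mul_of_nonneg_right _ (by positivity)
  rw [pow_add]
  apply mul_le_mul_of_nonneg_right _ (by positivity)
  have h1 : g n + 1 ≤ 2 ^ S.eval n := by
    have : S.eval n + 1 ≤ 2 ^ S.eval n := Nat.lt_two_pow_self
    omega
  exact_mod_cast h1

/-- polynomial locality for algorithms with guessed bits -/
theorem locN (g : ℕ → ℕ) (S : Polynomial ℕ) (hS : ∀ n, g n ≤ S.eval n) (M : Alg)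
    (r : Polynomial ℕ) : ∃ B : Polynomial ℕ, ∀ n, ∀ η ≤ g n, ∀ a x : List Bool,
      a.length ≤ (famN (fun n => n) M r).r.eval n → x.length = n → ∀ A A' : Oracle,
      (∀ q : List Bool, q.length ≤ B.eval n → A q = A' q) →
      ((famN (fun n => n) M r).F η a x A ↔ (famN (fun n => n) M r).F η a x A') := by
  obtain ⟨qb, hqb⟩ := Alg.out_local M
  refine ⟨qb.comp (2 * S + 4 * Polynomial.X + r + 3), ?_⟩
  intro n η hη a x ha hx A A' hA
  have h1 : ∀ w : List Bool, w.length ≤ η →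
      M.out A (pairBits w (pairBits (List.replicate x.length true) (pairBits x a))) =
      M.out A' (pairBits w (pairBits (List.replicate x.length true) (pairBits x a))) := by
    intro w hw
    obtain ⟨Q, _, hQl, hQA⟩ := hqb A' (pairBits w (pairBits (List.replicate x.length true)
      (pairBits x a)))
    apply hQA
    intro q hq
    apply hA
    rw [Polynomial.eval_comp]
    simp only [Polynomial.eval_add, Polynomial.eval_mul, Polynomial.eval_X,
      Polynomial.eval_ofNat]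
    refine (hQl q hq).trans (eval_mono _ ?_)
    have h2 : a.length ≤ r.eval n := ha
    have h3 := hS n
    rw [length_pairBits, length_pairBits, length_pairBits, List.length_replicate, hx]
    omega
  show (∃ w : List Bool, w.length ≤ η ∧ M.out A (pairBits w (pairBits (List.replicate
    x.length true) (pairBits x a))) = some [true]) ↔ (∃ w : List Bool, w.length ≤ η ∧
      M.out A' (pairBits w (pairBits (List.replicate x.length true) (pairBits x a))) = some [true])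
  constructor
  · rintro ⟨w, hw, h⟩
    exact ⟨w, hw, by rw [← h1 w hw]; exact h⟩
  · rintro ⟨w, hw, h⟩
    exact ⟨w, hw, by rw [h1 w hw]; exact h⟩

theorem null_empty (f : ℕ → ℝ) : Null f ∅ := by
  intro δ _
  refine ⟨∅, fun A hA => absurd hA (Set.notMem_empty A), ?_⟩
  simp

/-- the oracles relative to which the test language needs few guessed bits -/
theorem null_hit {f : ℕ → ℝ} (hf : Cond f) {g h : ℕ → ℕ} (S : Polynomial ℕ)
    (hS : ∀ n, g n ≤ S.eval n)
    (hgh : ∀ c : ℕ, ∀ᶠ n : ℕ in atTop, h n + c * (Nat.log 2 n + 1) < g n) :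
    Null f {A | InGuessAdv (fun n => n) h A (hitG g A)} := by
  have hcp : Countable (Polynomial ℕ) := countable_polyN
  have h1 : Null f (⋃ θ : Alg × Polynomial ℕ × ℕ, {A | (∀ n ≥ θ.2.2, 1 ≤ g n) ∧
      ∀ n ≥ θ.2.2, A ∈ Ev (famN (fun n => n) θ.1 θ.2.1) g n}) := by
    apply null_iUnion
    rintro ⟨M, r, n₀⟩
    by_cases h : ∀ n ≥ n₀, 1 ≤ g n
    · obtain ⟨B, hB⟩ := locN g S hS M r
      refine (null_fam hf (goodN (fun n => n) g M r) S hS B hB n₀ h).mono ?_
      rintro A ⟨_, hA⟩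
      exact hA
    · refine (null_empty f).mono ?_
      rintro A ⟨hA, _⟩
      exact absurd hA h
  refine h1.mono ?_
  rintro A ⟨V, a, r, ⟨M, hM⟩, ha, hx⟩
  obtain ⟨c, hc⟩ := bdN (fun n => n) g (fun _ => le_rfl) S hS M r
  obtain ⟨n₀, hn₀⟩ := eventually_atTop.1 (hgh (c + 5))
  rw [Set.mem_iUnion]
  refine ⟨(M, r, n₀), fun n hn => ?_, fun n hn => ?_⟩
  · have := hn₀ n hn
    omega
  · have h2 := hn₀ n hn
    refine ⟨h n, by omega, ?_, a n, ha n, fun x hxn => ?_⟩
    · have h5 := hc n (h n) (by omega)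
      have h6 : 5 + (h n + c * (Nat.log 2 n + 1)) ≤ g n := by
        have e1 : (c + 5) * (Nat.log 2 n + 1) = c * (Nat.log 2 n + 1) +
          5 * (Nat.log 2 n + 1) := by ring
        omega
      calc 32 * (famN (fun n => n) M r).T n (h n) ≤
            2 ^ 5 * 2 ^ (h n + c * (Nat.log 2 n + 1)) := by
            norm_num
            exact h5
        _ = 2 ^ (5 + (h n + c * (Nat.log 2 n + 1))) := by rw [← pow_add]
        _ ≤ _ := Nat.pow_le_pow_right (by norm_num) h6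
    · have h3 := hx x
      rw [hxn] at h3
      rw [h3]
      show (∃ w : List Bool, _) ↔ (∃ w : List Bool, _)
      refine exists_congr fun w => and_congr_right fun _ => ?_
      rw [hxn, hM, Option.some.injEq]

/-- **The gauge.** -/
theorem key {f : ℕ → ℝ} {g h : ℕ → ℕ} (hg : NiceT (fun n => n) g)
    (hgh : ∀ c : ℕ, ∀ᶠ n : ℕ in atTop, h n + c * (Nat.log 2 n + 1) < g n) (O : Set Oracle)
    (h1 : ∀ A : Oracle, (∀ L, IsPSPACE A L → IsP A L) → A ∈ O)
    (h2 : ∀ A ∈ O, ∀ L, InGuess (fun n => n) g A L → InGuessAdv (fun n => n) h A L) :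
    Null f O ↔
      ∀ ε : ℝ, 0 < ε → ∃ᶠ N : ℕ in Filter.atTop, f N ≤ 2 ^ (Real.logb 2 N) ^ ε := by
  constructor
  · intro hn
    by_contra hcon
    exact Pool.Agent.TH678.PN.not_null1 hcon O (fun A hA _ => h1 A hA) hn
  · intro hf
    obtain ⟨S, hS⟩ := hg.poly (fun _ => le_rfl)
    exact (null_hit hf S hS hgh).mono fun A hA => h2 A hA _ (hitG_guess hg A)

end Pool.Agent.TH93.GL
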